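import Pool.Agent.MP_a5588a_al.Solv.PartC
import Pool.Agent.MP_a5588a_al.Solv.LG

/-!
Every nontrivial finite 3-group `T` has a nontrivial characteristic subgroup `C` with
`T ∩ G' = T ∩ N_G(C)'` for all finite groups `G` with Sylow 3-subgroup `T` in which the normalisers
of the nontrivial 3-subgroups are 3-solvable. Every 3-solvable `G` satisfies this hypothesis
(lemma `ThreeSolvable.subgroup`).
-/

namespace Pool.Agent.Results.MP_a5588a_al.LocallySolvable

open Pool.Agent.MP_a5588a_al.Solv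

/-- `G` has a normal series each of whose factors has order a power of 3 or prime to 3. -/
def ThreeSolvable (G : Type*) [Group G] : Prop :=
  ∃ (n : ℕ) (s : ℕ → Subgroup G), s 0 = ⊥ ∧ s n = ⊤ ∧ (∀ i, (s i).Normal) ∧
    (∀ i, s i ≤ s (i + 1)) ∧
    ∀ i, (∃ k : ℕ, (s i).relIndex (s (i + 1)) = 3 ^ k) ∨ ¬ 3 ∣ (s i).relIndex (s (i + 1))

theorem ThreeSolvable.subgroup {G : Type*} [Group G] (h : ThreeSolvable G) (L : Subgroup G) :
    ThreeSolvable L := by
  obtain ⟨n, s, h0, hn, hN, hm, hs⟩ := h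
  refine ⟨n, fun i => (s i).subgroupOf L, by simp [h0], by simp [hn], fun i => ?_,
    fun i => Subgroup.comap_mono (hm i), fun i => ?_⟩
  · have := hN i
    infer_instance
  · have := hN i
    have hd : ((s i).subgroupOf L).relIndex ((s (i + 1)).subgroupOf L) ∣
        (s i).relIndex (s (i + 1)) := by
      rw [Subgroup.subgroupOf, Subgroup.subgroupOf, Subgroup.relIndex_comap,
        Subgroup.map_comap_eq]
      rw [← Subgroup.relIndex_subgroupOf inf_le_right]
      exact Subgroup.relIndex_dvd_index_of_normal _ _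
    rcases hs i with ⟨k, hk⟩ | hk
    · rw [hk] at hd
      obtain ⟨l, -, hl⟩ := (Nat.dvd_prime_pow Nat.prime_three).mp hd
      exact Or.inl ⟨l, hl⟩
    · exact Or.inr fun h => hk (h.trans hd)

theorem ThreeSolvable.solv3 {G : Type*} [Group G] (h : ThreeSolvable G) : Solv3 G := by
  obtain ⟨n, s, h0, hn, hN, -, hs⟩ := h
  refine ⟨n, s, h0, hn, hN, fun i => ?_⟩
  have := hN i
  have key : ∀ x ∈ s (i + 1), x ^ (s i).relIndex (s (i + 1)) ∈ s i := fun x hx =>
    Subgroup.pow_index_mem ((s i).subgroupOf (s (i + 1))) ⟨x, hx⟩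
  rcases hs i with ⟨k, hk⟩ | hk
  · exact Or.inl fun x hx => ⟨k, hk ▸ key x hx⟩
  · exact Or.inr fun x hx => ⟨_, hk, key x hx⟩

theorem result (T : Type*) [Group T] [Finite T] [Nontrivial T] (hT : IsPGroup 3 T) :
    ∃ C : Subgroup T, C.Characteristic ∧ C ≠ ⊥ ∧
      ∀ (G : Type*) [Group G] [Finite G] (S : Sylow 3 G) (f : T →* G),
        Function.Injective f → f.range = (S : Subgroup G) →
        (∀ P : Subgroup G, P ≠ ⊥ → IsPGroup 3 P →
          ThreeSolvable (Subgroup.normalizer (P : Set G))) →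
        (S : Subgroup G) ⊓ commutator G = (S : Subgroup G) ⊓
          ⁅Subgroup.normalizer (C.map f : Set G), Subgroup.normalizer (C.map f : Set G)⁆ := by
  obtain ⟨W, hW₀, hW⟩ := thmA T hT
  have hc : W.Characteristic := by
    rw [Subgroup.characteristic_iff_le_comap]
    intro φ x hx
    exact (hW ⊤ ⟨inferInstance, fun _ _ _ _ x _ h => absurd (Subgroup.mem_top x) h⟩).2
      ((Subgroup.topEquiv.trans φ).trans Subgroup.topEquiv.symm) ⟨x, trivial⟩ hx
  refine ⟨W, hc, hW₀, fun G _ _ S f hf hS hG => focal_of_FI S ?_ fun θ hθ h =>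
    lg partC hW₀ hW G (fun P h₁ h₂ => (hG P h₁ h₂).solv3) S f hf hS hθ h⟩
  rw [← hS]
  rintro _ ⟨t, rfl⟩
  refine Subgroup.mem_normalizer_fintype ?_
  rintro _ ⟨w, hw, rfl⟩
  exact ⟨t * w * t⁻¹, (inferInstance : W.Normal).conj_mem w hw t, by simp⟩

end Pool.Agent.Results.MP_a5588a_al.LocallySolvable
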