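import Pool.Agent.Mg.Fa5588a.G9a89c7

/-!
For a nontrivial finite 3-group `T` with `[T, A]` abelian for every abelian subgroup `A` of
largest order, the Thompson subgroup `J(T)` has property (F). Every metabelian `T` satisfies the
hypothesis, since `[T, A] ≤ T'` (lemma `hyp_of_metabelian`).
-/

namespace Pool.Agent.Results.MP_a5588a_al.Metabelian

open Pool.Agent.MP_a5588a_al

/-- `A` is an abelian subgroup of `T` of largest order. -/
def MaxAbelian {T : Type*} [Group T] (A : Subgroup T) : Prop :=
  IsMulCommutative A ∧ ∀ B : Subgroup T, IsMulCommutative B → Nat.card B ≤ Nat.card A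

/-- The Thompson subgroup: generated by the abelian subgroups of largest order. -/
def thompson (T : Type*) [Group T] : Subgroup T := sSup {A : Subgroup T | MaxAbelian A}

theorem ab_iff {T : Type*} [Group T] {A : Subgroup T} : Ab A ↔ IsMulCommutative A :=
  isMulCommutative_iff_of_setLike.symm

theorem max_iff {T : Type*} [Group T] {A : Subgroup T} : IsMaxAb ⊤ A ↔ MaxAbelian A :=
  ⟨fun h => ⟨ab_iff.mp h.2.1, fun B hB => h.2.2 B le_top (ab_iff.mpr hB)⟩,
    fun h => ⟨le_top, ab_iff.mpr h.1, fun B _ hB => h.2 B (ab_iff.mp hB)⟩⟩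

theorem JJ_top (T : Type*) [Group T] : JJ (⊤ : Subgroup T) = thompson T := by
  simp only [JJ, thompson, max_iff]

/-- Metabelian groups satisfy the hypothesis of `result`. -/
theorem hyp_of_metabelian {T : Type*} [Group T] (h : IsMulCommutative (commutator T))
    (A : Subgroup T) : IsMulCommutative (⁅(⊤ : Subgroup T), A⁆ : Subgroup T) := by
  have hle : ⁅(⊤ : Subgroup T), A⁆ ≤ commutator T := Subgroup.commutator_mono le_rfl le_top
  exact ab_iff.mp fun x hx y hy => ab_iff.mpr h x (hle hx) y (hle hy)

theorem result (T : Type*) [Group T] [Finite T] [Nontrivial T] (hT : IsPGroup 3 T)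
    (hab : ∀ A : Subgroup T, MaxAbelian A →
      IsMulCommutative (⁅(⊤ : Subgroup T), A⁆ : Subgroup T)) :
    (thompson T).Characteristic ∧ thompson T ≠ ⊥ ∧
      ∀ (G : Type*) [Group G] [Finite G] (S : Sylow 3 G) (f : T →* G),
        Function.Injective f → f.range = (S : Subgroup G) →
        (S : Subgroup G) ⊓ commutator G = (S : Subgroup G) ⊓
          ⁅Subgroup.normalizer ((thompson T).map f : Set G),
            Subgroup.normalizer ((thompson T).map f : Set G)⁆ := by
  have hH : Hyp (⊤ : Subgroup T) := fun A hA => ab_iff.mpr (hab A (max_iff.mp hA))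
  refine ⟨?_, ?_, ?_⟩
  · rw [Subgroup.characteristic_iff_map_eq]
    intro φ
    rw [← JJ_top, ← JJ_map _ φ.injective, Subgroup.map_top_of_surjective _ φ.surjective]
  · intro hbot
    obtain ⟨x, hx⟩ := exists_ne (1 : T)
    obtain ⟨A, hA, hmax⟩ := Set.exists_max_image {A : Subgroup T | IsMulCommutative A}
      (fun A => Nat.card A) (Set.toFinite _) ⟨⊥, by
        rw [Set.mem_ofPred_eq, ← ab_iff]
        intro a ha b _
        rw [Subgroup.mem_bot.mp ha]
        exact Commute.one_left b⟩
    have h1 : A ≤ thompson T := le_sSup ⟨hA, hmax⟩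
    rw [hbot, le_bot_iff] at h1
    have h2 := hmax (Subgroup.zpowers x) (by rw [Set.mem_ofPred_eq]; infer_instance)
    rw [h1, Subgroup.card_bot] at h2
    exact hx (Subgroup.zpowers_eq_bot.mp ((Subgroup.card_le_one_iff_eq_bot _).mp h2))
  · intro G _ _ S f hf hS
    have e : (⊤ : Subgroup T).map f = S := by rw [← MonoidHom.range_eq_map, hS]
    have h1 : JJ (S : Subgroup G) = (thompson T).map f := by rw [← e, JJ_map _ hf, JJ_top]
    rw [← h1]
    exact transfer S (e ▸ hyp_map hH hf)

end Pool.Agent.Results.MP_a5588a_al.Metabelian
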